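import Pool.Agent.H69.PG.Bh

/-!
# The Brun-Hooley fundamental lemma with a general density and a general error

`0 ≤ g p ≤ 2 J / p` on the primes in `(K, z]`, error terms `R S` for the sets `S` with `∏ S ≤ z ^ (4 b0 + 10)`, and only
`log2 z + 1` blocks, so that the errors are multiplied by `log2 z + 2` only (needed when they have savings by powers of the
logarithm only, as in the Bombieri-Vinogradov theorem). Uniform in `J`: `C (J + 1) ≤ b0`. The proof is that of `bh`.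
-/

open Finset EG

namespace H60PP

open H69PG

lemma bhg_ix_lt {K z p : ℕ} (_ : p ∈ PK K z) : bh_ix z p < Nat.log 2 z + 1 :=
  Nat.lt_succ_of_le (Nat.log_mono_right (Nat.log_le_self _ _))

lemma bhg_prod_le {K z b0 I : ℕ} (hz : 1 ≤ z) {S : Finset ℕ} (hS : S ⊆ PK K z) (hI : ∀ p ∈ PK K z, bh_ix z p < I)
    (hc : ∀ i < I, (S ∩ bh_Bk K z i).card ≤ 2 * (b0 + i) + 1) :
    ∏ p ∈ S, p ≤ z ^ (4 * b0 + 10) := by
  have hL : 0 ≤ Real.log z := Real.log_nonneg (by exact_mod_cast hz)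
  have hpos : ∀ p ∈ S, (0 : ℝ) < p := fun p hp => by
    have := (bh_mem_PK.1 (hS hp)).2.2.pos
    exact_mod_cast this
  have h1 : Real.log (∏ p ∈ S, (p : ℝ)) = ∑ p ∈ S, Real.log p :=
    Real.log_prod (fun p hp => (hpos p hp).ne')
  have h2 : ∑ p ∈ S, Real.log p = ∑ i ∈ range I, ∑ p ∈ S.filter (fun p => bh_ix z p = i), Real.log p :=
    (sum_fiberwise_of_maps_to (fun p hp => mem_range.2 (hI p (hS hp))) _).symm
  have h3 : ∀ i ∈ range I, ∑ p ∈ S.filter (fun p => bh_ix z p = i), Real.log p ≤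
      ((2 * b0 + 1 : ℝ) + 2 * i) / 2 ^ i * Real.log z := by
    intro i hi
    have h4 : ∀ p ∈ S.filter (fun p => bh_ix z p = i), Real.log p ≤ Real.log z / 2 ^ i := by
      intro p hp
      rw [mem_filter] at hp
      have := (bh_ix_log (hS hp.1)).1
      rwa [hp.2] at this
    have h5 : (S.filter (fun p => bh_ix z p = i)).card ≤ 2 * (b0 + i) + 1 := by
      refine (card_le_card ?_).trans (hc i (mem_range.1 hi))
      intro p hp
      rw [mem_filter] at hp
      rw [mem_inter, bh_Bk, mem_filter]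
      exact ⟨hp.1, hS hp.1, hp.2⟩
    have h5' : ((S.filter (fun p => bh_ix z p = i)).card : ℝ) ≤ (2 * b0 + 1 : ℝ) + 2 * i := by
      have : ((S.filter (fun p => bh_ix z p = i)).card : ℝ) ≤ ((2 * (b0 + i) + 1 : ℕ) : ℝ) := by
        exact_mod_cast h5
      push_cast at this
      linarith
    calc ∑ p ∈ S.filter (fun p => bh_ix z p = i), Real.log p
        ≤ ∑ _p ∈ S.filter (fun p => bh_ix z p = i), Real.log z / 2 ^ i := sum_le_sum h4
      _ = ((S.filter (fun p => bh_ix z p = i)).card : ℝ) * (Real.log z / 2 ^ i) := by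
          rw [sum_const, nsmul_eq_mul]
      _ ≤ ((2 * b0 + 1 : ℝ) + 2 * i) * (Real.log z / 2 ^ i) := by gcongr
      _ = _ := by ring
  have h6 : ∑ p ∈ S, Real.log p ≤ (4 * b0 + 10 : ℝ) * Real.log z := by
    rw [h2]
    refine (sum_le_sum h3).trans ?_
    rw [← sum_mul, bh_geo]
    refine mul_le_mul_of_nonneg_right ?_ hL
    have : (0 : ℝ) ≤ (2 * (2 * (b0 : ℝ) + 1) + 4 + 4 * I) / 2 ^ I := by positivity
    linarith
  have h7 : (∏ p ∈ S, (p : ℝ)) ≤ (z : ℝ) ^ (4 * b0 + 10) := by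
    have hz0 : (0 : ℝ) < z := by exact_mod_cast hz
    have h8 : 0 < ∏ p ∈ S, (p : ℝ) := prod_pos hpos
    rw [← Real.log_le_log_iff h8 (by positivity), h1, Real.log_pow]
    push_cast
    exact h6
  have h9 : ((∏ p ∈ S, p : ℕ) : ℝ) ≤ ((z ^ (4 * b0 + 10) : ℕ) : ℝ) := by
    rw [Nat.cast_prod, Nat.cast_pow]
    exact h7
  exact Nat.cast_le.1 h9

open Classical in
theorem bhG : ∃ C : ℕ, 1 ≤ C ∧ ∀ J b0 : ℕ, C * (J + 1) ≤ b0 → ∀ K z : ℕ, 4 * J ≤ K → 2 ≤ K → K ≤ z →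
    ∀ g : ℕ → ℝ, (∀ p ∈ PK K z, 0 ≤ g p ∧ g p ≤ 2 * (J : ℝ) / p) →
    ∀ (T : Finset ℕ) (B : ℕ → ℕ → Prop) (Y : ℝ) (R : Finset ℕ → ℝ), 0 ≤ Y → (∀ S, 0 ≤ R S) →
    (∀ S ⊆ PK K z, ∏ p ∈ S, p ≤ z ^ (4 * b0 + 10) →
      |((T.filter (fun t => ∀ p ∈ S, B t p)).card : ℝ) - Y * ∏ p ∈ S, g p| ≤ R S) →
    |((T.filter (fun t => ∀ p ∈ PK K z, ¬ B t p)).card : ℝ) - Y * ∏ p ∈ PK K z, (1 - g p)| ≤
      Real.exp (-(b0 : ℝ)) * (Y * ∏ p ∈ PK K z, (1 - g p)) +
        ((Nat.log 2 z : ℝ) + 2) * ∑ S ∈ (PK K z).powerset.filter (fun S => ∏ p ∈ S, p ≤ z ^ (4 * b0 + 10)), R S := by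
  obtain ⟨c6, hc6, hrec⟩ := bh_recip
  obtain ⟨C, hC⟩ := exists_nat_ge (42 * c6 + 2)
  refine ⟨max C 1, le_max_right _ _, fun J b0 hb0 K z hjK hK hKz g hgp T B Y R hY hR hN => ?_⟩
  set σ : ℝ := 2 * J * c6 with hσdef
  have hσ0 : 0 ≤ σ := by positivity
  have hb0' : 21 * σ + 2 ≤ (b0 : ℝ) := by
    have h1 : ((max C 1 * (J + 1) : ℕ) : ℝ) ≤ b0 := by exact_mod_cast hb0
    have h2 : (C : ℝ) ≤ ((max C 1 : ℕ) : ℝ) := by exact_mod_cast le_max_left C 1
    push_cast at h1 h2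
    have hJ : (0 : ℝ) ≤ J := Nat.cast_nonneg J
    have h3 : (42 * c6 + 2) * (J + 1) ≤ max (C : ℝ) 1 * (J + 1) :=
      mul_le_mul_of_nonneg_right (hC.trans h2) (by positivity)
    have h4 : 21 * σ + 2 ≤ (42 * c6 + 2) * (J + 1) := by
      rw [hσdef]
      nlinarith
    linarith
  have hz2 : 2 ≤ z := hK.trans hKz
  have hz1 : 1 ≤ z := by omega
  obtain ⟨I, hI⟩ : ∃ I, I = Nat.log 2 z + 1 := ⟨_, rfl⟩
  have hix : ∀ p ∈ PK K z, bh_ix z p < I := fun p hp => by rw [hI]; exact bhg_ix_lt hp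
  have hU : (range I).biUnion (bh_Bk K z) = PK K z := by
    ext p
    rw [mem_biUnion]
    constructor
    · rintro ⟨i, _, hi⟩
      exact (mem_filter.1 hi).1
    · intro hp
      exact ⟨bh_ix z p, mem_range.2 (hix p hp), mem_filter.2 ⟨hp, rfl⟩⟩
  have hg : ∀ i < I, ∀ p ∈ bh_Bk K z i, 0 ≤ g p ∧ g p ≤ 1 / 2 := by
    intro i _ p hp
    have hp' := (mem_filter.1 hp).1
    have h1 := (bh_mem_PK.1 hp').1
    have hp0 : (0 : ℝ) < p := by
      have : 0 < p := by omega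
      exact_mod_cast this
    refine ⟨(hgp p hp').1, (hgp p hp').2.trans ?_⟩
    rw [div_le_div_iff₀ hp0 (by norm_num)]
    have : 4 * J ≤ p := by omega
    have h2 : (4 : ℝ) * J ≤ p := by exact_mod_cast this
    linarith
  have hσi : ∀ i, ∑ p ∈ bh_Bk K z i, g p ≤ σ := by
    intro i
    have h1 := hrec K z i hK
    calc ∑ p ∈ bh_Bk K z i, g p ≤ ∑ p ∈ bh_Bk K z i, 2 * (J : ℝ) * (1 / p) := by
          refine sum_le_sum fun p hp => (hgp p (mem_filter.1 hp).1).2.trans (le_of_eq ?_)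
          ring
      _ = 2 * J * ∑ p ∈ bh_Bk K z i, (1 : ℝ) / p := by rw [mul_sum]
      _ ≤ σ := by rw [hσdef]; gcongr
  set δ : ℕ → ℝ := fun i => Real.exp (2 * σ - 2 * ((2 * (b0 + i) + 1 : ℕ) : ℝ)) with hδ
  set R' : Finset ℕ → ℝ := fun S => if ∏ p ∈ S, p ≤ z ^ (4 * b0 + 10) then R S else 0 with hR'
  have hΔ : ∑ i ∈ range I, δ i ≤ Real.exp (-(b0 : ℝ)) / 5 := by
    have h1 : ∀ i : ℕ, δ i = Real.exp (2 * σ - 4 * b0 - 2) * Real.exp (-(4 * (i : ℝ))) := by
      intro i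
      rw [hδ, ← Real.exp_add]
      simp only
      congr 1
      push_cast
      ring
    simp only [h1]
    rw [← mul_sum]
    have h2 := bh_expsum I
    have h3 : Real.exp (2 * σ - 4 * b0 - 2) ≤ Real.exp (-(b0 : ℝ)) * Real.exp (-5) := by
      rw [← Real.exp_add]
      apply Real.exp_le_exp.2
      linarith
    have h4 : Real.exp (-5) ≤ 1 / 10 := by
      have h5 : Real.exp (-5 : ℝ) = Real.exp (-(5 / 2)) * Real.exp (-(5 / 2)) := by
        rw [← Real.exp_add]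
        norm_num
      have h6 : Real.exp (-(5 / 2 : ℝ)) ≤ 2 / 7 := by
        rw [Real.exp_neg, inv_le_comm₀ (Real.exp_pos _) (by norm_num)]
        have := Real.add_one_le_exp (5 / 2 : ℝ)
        linarith
      have h7 := Real.exp_pos (-(5 / 2 : ℝ))
      rw [h5]
      nlinarith
    have h8 := Real.exp_pos (-(b0 : ℝ))
    calc Real.exp (2 * σ - 4 * b0 - 2) * ∑ i ∈ range I, Real.exp (-(4 * (i : ℝ)))
        ≤ (Real.exp (-(b0 : ℝ)) * (1 / 10)) * 2 := by
          refine mul_le_mul (h3.trans ?_) h2 (sum_nonneg fun i _ => (Real.exp_pos _).le) (by positivity)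
          gcongr
      _ = Real.exp (-(b0 : ℝ)) / 5 := by ring
  have hmain := bhc I (bh_Bk K z) (by
      intro i _ i' _ hne
      rw [Finset.disjoint_left]
      intro p hp hp'
      exact hne ((mem_filter.1 hp).2.symm.trans (mem_filter.1 hp').2)) (fun i => b0 + i)
    g (fun i hi p hp => ⟨(hg i hi p hp).1, (hg i hi p hp).2.trans (by norm_num)⟩)
    δ (fun i _ => (Real.exp_pos _).le) (by
      intro i hi
      have h1 := ehb_W (bh_Bk K z i) (b0 + i) g (fun p hp => (hg i hi p hp).1) (hσi i)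
      have h2 := ehb_I (bh_Bk K z i) g (hg i hi) (hσi i)
      have h3 : 21 * σ ≤ ((2 * (b0 + i) + 1 : ℕ) : ℝ) := by
        push_cast
        have : (0 : ℝ) ≤ i := Nat.cast_nonneg i
        linarith
      have h4 := bh_fact hσ0 h3
      calc eW (bh_Bk K z i) (b0 + i) g
          ≤ Real.exp (-(2 * ((2 * (b0 + i) + 1 : ℕ) : ℝ))) := h1.trans h4
        _ = δ i * Real.exp (-(2 * σ)) := by
            rw [hδ, ← Real.exp_add]
            congr 1
            ring
        _ ≤ δ i * eI (bh_Bk K z i) g :=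
            mul_le_mul_of_nonneg_left h2 (Real.exp_pos _).le)
    hΔ (by
      have : Real.exp (-(b0 : ℝ)) ≤ 1 := by
        rw [Real.exp_le_one_iff]
        have : (0 : ℝ) ≤ b0 := Nat.cast_nonneg b0
        linarith
      linarith) T B hY R' (by
      intro S
      rw [hR']
      simp only
      split_ifs
      · exact hR S
      · exact le_rfl) (by
      intro S hS hc
      rw [hU] at hS
      have hp := bhg_prod_le hz1 hS hix hc
      have h1 := hN S hS hp
      rw [hR']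
      simp only
      rw [if_pos hp]
      exact h1)
  rw [hU] at hmain
  refine hmain.trans ?_
  have hsum : ∑ S ∈ (PK K z).powerset.filter (fun S => ∀ i < I, (S ∩ bh_Bk K z i).card ≤ 2 * (b0 + i) + 1), R' S ≤
      ∑ S ∈ (PK K z).powerset.filter (fun S => ∏ p ∈ S, p ≤ z ^ (4 * b0 + 10)), R S := by
    calc ∑ S ∈ (PK K z).powerset.filter (fun S => ∀ i < I, (S ∩ bh_Bk K z i).card ≤ 2 * (b0 + i) + 1), R' S
        = ∑ S ∈ (PK K z).powerset.filter (fun S => ∀ i < I, (S ∩ bh_Bk K z i).card ≤ 2 * (b0 + i) + 1), R S := by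
          refine sum_congr rfl fun S hS => ?_
          rw [mem_filter, mem_powerset] at hS
          rw [hR']
          simp only
          rw [if_pos (bhg_prod_le hz1 hS.1 hix hS.2)]
      _ ≤ ∑ S ∈ (PK K z).powerset.filter (fun S => ∏ p ∈ S, p ≤ z ^ (4 * b0 + 10)), R S := by
          apply sum_le_sum_of_subset_of_nonneg
          · intro S hS
            rw [mem_filter, mem_powerset] at hS
            rw [mem_filter, mem_powerset]
            exact ⟨hS.1, bhg_prod_le hz1 hS.1 hix hS.2⟩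
          · intro S _ _
            exact hR S
  have h5 : 5 * (Real.exp (-(b0 : ℝ)) / 5) = Real.exp (-(b0 : ℝ)) := by ring
  rw [h5]
  refine add_le_add le_rfl ?_
  have hI1 : (I : ℝ) + 1 = (Nat.log 2 z : ℝ) + 2 := by
    rw [hI]
    push_cast
    ring
  rw [hI1]
  exact mul_le_mul_of_nonneg_left hsum (by positivity)

end H60PP
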